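import Pool.Agent.H487R3.Cau.Stmts

set_option autoImplicit false

/-! Task T3 (`TaskMatrix`) of project H487-CAUCHY. -/

open MeasureTheory Filter Set Topology
open scoped ENNReal NNReal

namespace Pool.Agent.H224R3.Cau

open Pool.Agent.H487R3.Cau

lemma W_comm (a : ℝ → ℂ) (Q : ℝ → ℝ → ℂ) (l h l' h' : ℝ) :
    W a (fun x => W a (fun y => Q x y) l' h') l h = W a (fun y => W a (fun x => Q x y) l h) l' h' := by
  unfold W
  simp only [div_eq_mul_inv]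
  generalize (G a (l + h) - G a l)⁻¹ = c1
  generalize (G a (l + 2 * h) - G a (l + h))⁻¹ = c2
  generalize (G a (l' + h') - G a l')⁻¹ = c3
  generalize (G a (l' + 2 * h') - G a (l' + h'))⁻¹ = c4
  ring

lemma G_lower (a : ℝ → ℂ) (ha : LipschitzWith (1 / 10) a) (x h : ℝ) (hh : 0 < h) :
    9 / 10 * h ≤ ‖G a (x + h) - G a x‖ := by
  have h1 : ‖a (x + h) - a x‖ ≤ 1 / 10 * h := by
    have := ha.dist_le_mul (x + h) x
    rw [dist_eq_norm, Real.dist_eq, add_sub_cancel_left, abs_of_pos hh] at this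
    simpa using this
  have h2 : G a (x + h) - G a x = (h : ℂ) + (a (x + h) - a x) := by
    unfold G
    push_cast
    ring
  have h3 : ‖(h : ℂ)‖ = h := by
    rw [Complex.norm_real, Real.norm_eq_abs, abs_of_pos hh]
  rw [h2]
  have h4 : ‖(h : ℂ)‖ ≤ ‖(h : ℂ) + (a (x + h) - a x)‖ + ‖a (x + h) - a x‖ := by
    have := norm_sub_le ((h : ℂ) + (a (x + h) - a x)) (a (x + h) - a x)
    rwa [add_sub_cancel_right] at this
  rw [h3] at h4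
  linarith

lemma quot_le (a : ℝ → ℂ) (ha : LipschitzWith (1 / 10) a) (x h : ℝ) (hh : 0 < h) (u v : ℂ) :
    ‖(u - v) / (G a (x + h) - G a x)‖ ≤ 2 / h * (‖u‖ + ‖v‖) := by
  have h1 := G_lower a ha x h hh
  have h2 : 0 < ‖G a (x + h) - G a x‖ := by
    have : 0 < 9 / 10 * h := by positivity
    linarith
  rw [norm_div, div_le_iff₀ h2]
  have h3 : ‖u - v‖ ≤ ‖u‖ + ‖v‖ := norm_sub_le _ _
  have h4 : 0 ≤ ‖u‖ + ‖v‖ := by positivity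
  calc ‖u - v‖ ≤ ‖u‖ + ‖v‖ := h3
    _ ≤ 2 / h * (‖u‖ + ‖v‖) * (9 / 10 * h) := by
        have : 2 / h * (‖u‖ + ‖v‖) * (9 / 10 * h) = 9 / 5 * (‖u‖ + ‖v‖) := by
          field_simp
          ring
        rw [this]
        linarith
    _ ≤ _ := by gcongr

lemma W_le (a : ℝ → ℂ) (ha : LipschitzWith (1 / 10) a) (F : ℝ → ℂ) (l h : ℝ) (hh : 0 < h) :
    ‖W a F l h‖ ≤ 4 / h * (‖F l‖ + ‖F (l + h)‖ + ‖F (l + 2 * h)‖) := by
  unfold W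
  have h1 := quot_le a ha l h hh (F (l + h)) (F l)
  have h2 := quot_le a ha (l + h) h hh (F (l + 2 * h)) (F (l + h))
  rw [show l + h + h = l + 2 * h by ring] at h2
  calc _ ≤ _ := norm_sub_le _ _
    _ ≤ 2 / h * (‖F (l + h)‖ + ‖F l‖) + 2 / h * (‖F (l + 2 * h)‖ + ‖F (l + h)‖) := add_le_add h1 h2
    _ ≤ _ := by
      have h3 : 4 / h * (‖F l‖ + ‖F (l + h)‖ + ‖F (l + 2 * h)‖) -
        (2 / h * (‖F (l + h)‖ + ‖F l‖) + 2 / h * (‖F (l + 2 * h)‖ + ‖F (l + h)‖)) =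
        2 / h * (‖F l‖ + ‖F (l + 2 * h)‖) := by ring
      have h4 : 0 ≤ 2 / h * (‖F l‖ + ‖F (l + 2 * h)‖) := by positivity
      linarith

lemma dk_eq (z : ℤ) : ∃ U : ℝ, 1 ≤ U ∧ U ^ 4 = 1 + |(z : ℝ)| ∧ dk z = (U ^ 5)⁻¹ := by
  have h0 : (1 : ℝ) ≤ 1 + |(z : ℝ)| := by
    have := abs_nonneg (z : ℝ)
    linarith
  have h1 : (0 : ℝ) ≤ 1 + |(z : ℝ)| := by linarith
  refine ⟨(1 + |(z : ℝ)|) ^ (1 / 4 : ℝ), Real.one_le_rpow h0 (by norm_num), ?_, ?_⟩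
  · rw [← Real.rpow_natCast, ← Real.rpow_mul h1]
    norm_num
  · unfold dk
    rw [← Real.rpow_natCast, ← Real.rpow_mul h1, Real.rpow_neg h1]
    norm_num

lemma T_eq (n k : ℕ) : ∃ T : ℝ, 1 ≤ T ∧ T ^ 4 = 2 ^ k ∧
    (2 : ℝ) ^ (-((((n + k : ℕ) : ℝ) - n) / 4)) = T⁻¹ ∧
    √((2 : ℝ) ^ n)⁻¹ * √((2 : ℝ) ^ (n + k))⁻¹ = ((2 : ℝ) ^ n)⁻¹ * (T ^ 2)⁻¹ := by
  have h2 : (0 : ℝ) ≤ 2 := by norm_num
  refine ⟨(2 : ℝ) ^ ((k : ℝ) / 4), Real.one_le_rpow (by norm_num) (by positivity), ?_, ?_, ?_⟩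
  · rw [← Real.rpow_natCast, ← Real.rpow_mul h2, ← Real.rpow_natCast]
    congr 1
    push_cast
    ring
  · rw [← Real.rpow_neg h2]
    congr 1
    push_cast
    ring
  · have h3 : (2 : ℝ) ^ n = (2 : ℝ) ^ (n : ℝ) := (Real.rpow_natCast _ _).symm
    have h4 : (2 : ℝ) ^ (n + k) = (2 : ℝ) ^ (n : ℝ) * (2 : ℝ) ^ (k : ℝ) := by
      rw [← Real.rpow_add (by norm_num), ← Real.rpow_natCast]
      push_cast
      rfl
    have h5 : (2 : ℝ) ^ (k : ℝ) = (((2 : ℝ) ^ ((k : ℝ) / 4)) ^ 2) ^ 2 := by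
      rw [← pow_mul, ← Real.rpow_natCast, ← Real.rpow_mul h2]
      congr 1
      push_cast
      ring
    have h6 : √((2 : ℝ) ^ (n + k)) = √((2 : ℝ) ^ (n : ℝ)) * ((2 : ℝ) ^ ((k : ℝ) / 4)) ^ 2 := by
      rw [h4, h5, Real.sqrt_mul (by positivity), Real.sqrt_sq (by positivity)]
    have h7 : √((2 : ℝ) ^ n) * √((2 : ℝ) ^ n) = (2 : ℝ) ^ n := Real.mul_self_sqrt (by positivity)
    rw [Real.sqrt_inv, Real.sqrt_inv, h6, ← h3]
    rw [show (√((2 : ℝ) ^ n))⁻¹ * (√((2 : ℝ) ^ n) * ((2 : ℝ) ^ ((k : ℝ) / 4)) ^ 2)⁻¹ =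
      (√((2 : ℝ) ^ n) * √((2 : ℝ) ^ n))⁻¹ * (((2 : ℝ) ^ ((k : ℝ) / 4)) ^ 2)⁻¹ by
        rw [mul_inv, mul_inv]; ring]
    rw [h7]

lemma floor_bd (n m p : ℕ) :
    (((p * 2 ^ m / 2 ^ (n + 1) : ℕ) : ℤ) : ℝ) ≤ (p : ℝ) / 2 ^ (n + 1) * 2 ^ m ∧
    (p : ℝ) / 2 ^ (n + 1) * 2 ^ m < (((p * 2 ^ m / 2 ^ (n + 1) : ℕ) : ℤ) : ℝ) + 1 := by
  have h0 : 0 < 2 ^ (n + 1) := by positivity
  have h1 := Nat.div_mul_le_self (p * 2 ^ m) (2 ^ (n + 1))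
  have h2 := Nat.lt_div_mul_add (a := p * 2 ^ m) h0
  have h1' : ((p * 2 ^ m / 2 ^ (n + 1) : ℕ) : ℝ) * 2 ^ (n + 1) ≤ p * 2 ^ m := by
    exact_mod_cast h1
  have h2' : (p : ℝ) * 2 ^ m < ((p * 2 ^ m / 2 ^ (n + 1) : ℕ) : ℝ) * 2 ^ (n + 1) + 2 ^ (n + 1) := by
    exact_mod_cast h2
  have h3 : (p : ℝ) / 2 ^ (n + 1) * 2 ^ m = p * 2 ^ m / 2 ^ (n + 1) := by ring
  rw [Int.cast_natCast, h3]
  constructor
  · rw [le_div_iff₀ (by positivity)]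
    exact h1'
  · rw [div_lt_iff₀ (by positivity)]
    linarith

lemma node_le (a : ℝ → ℂ) (Q : ℝ → ℝ → ℂ) (C1 : ℝ) (hC1 : 0 < C1)
    (hnear : ∀ e l h : ℝ, 0 < h → ‖W a (fun w => Q e w) l h‖ ≤ C1 ∧
      ∀ D : ℝ, 0 < D → (∀ w ∈ Icc l (l + 2 * h), D ≤ |w - e|) →
        ‖W a (fun w => Q e w) l h‖ ≤ C1 * (h / D))
    (n m p j : ℕ) (e : ℝ) (he : e = (p : ℝ) / 2 ^ (n + 1)) :
    ‖Wd a (fun y => Q e y) m j‖ ≤
      2 * C1 / (1 + |(((j : ℤ) - ((p * 2 ^ m / 2 ^ (n + 1) : ℕ) : ℤ) : ℤ) : ℝ)|) := by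
  have hfl := floor_bd n m p
  set q : ℤ := ((p * 2 ^ m / 2 ^ (n + 1) : ℕ) : ℤ) with hq
  rw [← he] at hfl
  set z : ℤ := (j : ℤ) - q with hz
  have hzR : (z : ℝ) = (j : ℝ) - (q : ℝ) := by rw [hz]; push_cast; ring
  unfold Wd
  have hN := hnear e ((j : ℝ) / 2 ^ m) (1 / 2 ^ (m + 1)) (by positivity)
  have hpm : (0 : ℝ) < 2 ^ m := by positivity
  by_cases hM : |z| ≤ 1
  · have hM' : |(z : ℝ)| ≤ 1 := by exact_mod_cast hM
    refine hN.1.trans ?_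
    rw [le_div_iff₀ (by positivity)]
    nlinarith [abs_nonneg (z : ℝ)]
  · have hM2 : 2 ≤ |z| := by omega
    have hM' : (2 : ℝ) ≤ |(z : ℝ)| := by exact_mod_cast hM2
    have hD : 0 < (|(z : ℝ)| - 1) / 2 ^ m := div_pos (by linarith) hpm
    refine (hN.2 _ hD ?_).trans ?_
    · intro w hw
      have hw2 : w ≤ ((j : ℝ) + 1) / 2 ^ m := by
        have h2 := hw.2
        have : (j : ℝ) / 2 ^ m + 2 * (1 / 2 ^ (m + 1)) = ((j : ℝ) + 1) / 2 ^ m := by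
          rw [pow_succ]; field_simp
        linarith
      have hw1 := hw.1
      rw [div_le_iff₀ hpm]
      have hw1' : (j : ℝ) ≤ w * 2 ^ m := by rwa [div_le_iff₀ hpm] at hw1
      have hw2' : w * 2 ^ m ≤ (j : ℝ) + 1 := by rwa [le_div_iff₀ hpm] at hw2
      have h5 : |w - e| * 2 ^ m = |w * 2 ^ m - e * 2 ^ m| := by
        rw [← sub_mul, abs_mul, abs_of_pos hpm]
      rw [h5]
      rcases le_total 0 (z : ℝ) with h6 | h6
      · rw [abs_of_nonneg h6]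
        refine le_trans ?_ (le_abs_self _)
        rw [hzR]
        linarith [hfl.2]
      · rw [abs_of_nonpos h6]
        refine le_trans ?_ (neg_le_abs _)
        rw [hzR]
        linarith [hfl.1]
    · have h7 : (1 : ℝ) / 2 ^ (m + 1) / ((|(z : ℝ)| - 1) / 2 ^ m) = 1 / (2 * (|(z : ℝ)| - 1)) := by
        have : |(z : ℝ)| - 1 ≠ 0 := by linarith
        rw [pow_succ]
        field_simp
      rw [h7, mul_one_div, div_le_div_iff₀ (by linarith) (by positivity)]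
      nlinarith

lemma alg_near (T U : ℝ) (hT : 1 ≤ T) (hU : 1 ≤ U) (h : U ^ 4 ≤ 16 * T ^ 4) :
    (T ^ 2)⁻¹ * (1 / U ^ 4) ≤ 2 * (T⁻¹ * (U ^ 5)⁻¹) := by
  have hT0 : 0 < T := by linarith
  have hU0 : 0 < U := by linarith
  have h1 : U ≤ 2 * T := by
    have : U ^ 4 ≤ (2 * T) ^ 4 := by rw [mul_pow]; norm_num; exact h
    exact le_of_pow_le_pow_left₀ (by norm_num) (by positivity) this
  have h2 : (T ^ 2)⁻¹ * (1 / U ^ 4) = U * ((T ^ 2)⁻¹ * (U ^ 5)⁻¹) := by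
    field_simp
  have h3 : 2 * (T⁻¹ * (U ^ 5)⁻¹) = 2 * T * ((T ^ 2)⁻¹ * (U ^ 5)⁻¹) := by
    field_simp
  rw [h2, h3]
  gcongr

lemma alg_far (T U : ℝ) (hT : 1 ≤ T) (hU : 1 ≤ U) (h : T ^ 4 ≤ U ^ 4) :
    T ^ 6 / U ^ 12 ≤ T⁻¹ * (U ^ 5)⁻¹ := by
  have hT0 : 0 < T := by linarith
  have hU0 : 0 < U := by linarith
  have h1 : T ≤ U := le_of_pow_le_pow_left₀ (by norm_num) hU0.le h
  rw [← mul_inv, div_le_iff₀ (by positivity), inv_mul_eq_div, le_div_iff₀ (by positivity)]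
  calc T ^ 6 * (T * U ^ 5) = T ^ 7 * U ^ 5 := by ring
    _ ≤ U ^ 7 * U ^ 5 := by gcongr
    _ = U ^ 12 := by ring

lemma core (a : ℝ → ℂ) (ha : LipschitzWith (1 / 10) a) (Q : ℝ → ℝ → ℂ) (C1 C2 : ℝ)
    (hC1 : 0 < C1) (hC2 : 0 < C2)
    (hnear : ∀ e l h : ℝ, 0 < h → ‖W a (fun w => Q e w) l h‖ ≤ C1 ∧
      ∀ D : ℝ, 0 < D → (∀ w ∈ Icc l (l + 2 * h), D ≤ |w - e|) →
        ‖W a (fun w => Q e w) l h‖ ≤ C1 * (h / D))
    (hfar : ∀ l h l' h' D : ℝ, 0 < h → 0 < h' → 0 < D →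
      (∀ x ∈ Icc l (l + 2 * h), ∀ y ∈ Icc l' (l' + 2 * h'), D ≤ |x - y|) →
        ‖W a (fun x => W a (fun y => Q x y) l' h') l h‖ ≤ C2 * (h * h' / D ^ 3))
    (n i k j : ℕ) :
    √((2 : ℝ) ^ n)⁻¹ * √((2 : ℝ) ^ (n + k))⁻¹ *
      ‖Wd a (fun x => Wd a (fun y => Q x y) (n + k) j) n i‖ ≤
        (32 * C1 + 2 * C2) * ub n i (n + k) j := by
  obtain ⟨T, hT1, hT4, hTinv, hTs⟩ := T_eq n k
  have hfl0 := floor_bd n (n + k) (2 * i)
  have hfl1 := floor_bd n (n + k) (2 * i + 1)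
  have hfl2 := floor_bd n (n + k) (2 * i + 2)
  have hn0 := node_le a Q C1 hC1 hnear n (n + k) (2 * i) j ((i : ℝ) / 2 ^ n)
    (by rw [pow_succ]; push_cast; field_simp)
  have hn1 := node_le a Q C1 hC1 hnear n (n + k) (2 * i + 1) j ((i : ℝ) / 2 ^ n + 1 / 2 ^ (n + 1))
    (by rw [pow_succ]; push_cast; field_simp)
  have hn2 := node_le a Q C1 hC1 hnear n (n + k) (2 * i + 2) j
    ((i : ℝ) / 2 ^ n + 2 * (1 / 2 ^ (n + 1)))
    (by rw [pow_succ]; push_cast; field_simp)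
  unfold ub
  rw [hTinv, hTs]
  set q0 : ℤ := ((2 * i * 2 ^ (n + k) / 2 ^ (n + 1) : ℕ) : ℤ) with hq0
  set q1 : ℤ := (((2 * i + 1) * 2 ^ (n + k) / 2 ^ (n + 1) : ℕ) : ℤ) with hq1
  set q2 : ℤ := (((2 * i + 2) * 2 ^ (n + k) / 2 ^ (n + 1) : ℕ) : ℤ) with hq2
  obtain ⟨U0, hU0, hU04, hd0⟩ := dk_eq ((j : ℤ) - q0)
  obtain ⟨U1, hU1, hU14, hd1⟩ := dk_eq ((j : ℤ) - q1)
  obtain ⟨U2, hU2, hU24, hd2⟩ := dk_eq ((j : ℤ) - q2)
  rw [hd0, hd1, hd2]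
  rw [← hU04] at hn0
  rw [← hU14] at hn1
  rw [← hU24] at hn2
  have hT0 : 0 < T := by linarith
  have hU00 : 0 < U0 := by linarith
  have hU10 : 0 < U1 := by linarith
  have hU20 : 0 < U2 := by linarith
  have h2k : (1 : ℝ) ≤ 2 ^ k := one_le_pow₀ (by norm_num)
  have h2n : (0 : ℝ) < 2 ^ n := by positivity
  -- the real quantities
  have hpk : (2 : ℝ) ^ (n + k) = 2 ^ n * 2 ^ k := pow_add _ _ _
  have e0 : ((2 * i : ℕ) : ℝ) / 2 ^ (n + 1) * 2 ^ (n + k) = i * 2 ^ k := by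
    rw [hpk, pow_succ]; push_cast; field_simp
  have e1 : ((2 * i + 1 : ℕ) : ℝ) / 2 ^ (n + 1) * 2 ^ (n + k) = i * 2 ^ k + 2 ^ k / 2 := by
    rw [hpk, pow_succ]; push_cast; field_simp
  have e2 : ((2 * i + 2 : ℕ) : ℝ) / 2 ^ (n + 1) * 2 ^ (n + k) = i * 2 ^ k + 2 ^ k := by
    rw [hpk, pow_succ]; push_cast; field_simp
  rw [e0] at hfl0
  rw [e1] at hfl1
  rw [e2] at hfl2
  have hz0 : ((((j : ℤ) - q0 : ℤ)) : ℝ) = j - q0 := by push_cast; ring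
  have hz1 : ((((j : ℤ) - q1 : ℤ)) : ℝ) = j - q1 := by push_cast; ring
  have hz2 : ((((j : ℤ) - q2 : ℤ)) : ℝ) = j - q2 := by push_cast; ring
  rw [hz0] at hU04
  rw [hz1] at hU14
  rw [hz2] at hU24
  by_cases hcase : U1 ^ 4 ≤ 8 * 2 ^ k
  · -- near case
    have hc1 : U1 ^ 4 ≤ 16 * T ^ 4 := by rw [hT4]; linarith
    have hc0 : U0 ^ 4 ≤ 16 * T ^ 4 := by
      rw [hT4, hU04]
      have h1 : |(j : ℝ) - q0| ≤ |(j : ℝ) - q1| + |(q1 : ℝ) - q0| := by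
        have := abs_add_le ((j : ℝ) - q1) ((q1 : ℝ) - q0)
        rwa [sub_add_sub_cancel] at this
      have h2 : |(q1 : ℝ) - q0| ≤ 2 * 2 ^ k := by
        rw [abs_le]
        constructor <;> linarith [hfl0.1, hfl0.2, hfl1.1, hfl1.2]
      linarith
    have hc2 : U2 ^ 4 ≤ 16 * T ^ 4 := by
      rw [hT4, hU24]
      have h1 : |(j : ℝ) - q2| ≤ |(j : ℝ) - q1| + |(q1 : ℝ) - q2| := by
        have := abs_add_le ((j : ℝ) - q1) ((q1 : ℝ) - q2)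
        rwa [sub_add_sub_cancel] at this
      have h2 : |(q1 : ℝ) - q2| ≤ 2 * 2 ^ k := by
        rw [abs_le]
        constructor <;> linarith [hfl2.1, hfl2.2, hfl1.1, hfl1.2]
      linarith
    have a0 := alg_near T U0 hT1 hU0 hc0
    have a1 := alg_near T U1 hT1 hU1 hc1
    have a2 := alg_near T U2 hT1 hU2 hc2
    have hW := W_le a ha (fun x => Wd a (fun y => Q x y) (n + k) j) ((i : ℝ) / 2 ^ n)
      (1 / 2 ^ (n + 1)) (by positivity)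
    have h8 : (4 : ℝ) / (1 / 2 ^ (n + 1)) = 8 * 2 ^ n := by
      rw [pow_succ]; field_simp; norm_num
    rw [h8] at hW
    have hsum : ‖Wd a (fun x => Wd a (fun y => Q x y) (n + k) j) n i‖ ≤
        8 * 2 ^ n * (2 * C1 / U0 ^ 4 + 2 * C1 / U1 ^ 4 + 2 * C1 / U2 ^ 4) := by
      refine hW.trans ?_
      gcongr
    calc (2 ^ n : ℝ)⁻¹ * (T ^ 2)⁻¹ * ‖Wd a (fun x => Wd a (fun y => Q x y) (n + k) j) n i‖
        ≤ (2 ^ n : ℝ)⁻¹ * (T ^ 2)⁻¹ *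
          (8 * 2 ^ n * (2 * C1 / U0 ^ 4 + 2 * C1 / U1 ^ 4 + 2 * C1 / U2 ^ 4)) := by gcongr
      _ = 16 * C1 * ((T ^ 2)⁻¹ * (1 / U0 ^ 4) + (T ^ 2)⁻¹ * (1 / U1 ^ 4) +
          (T ^ 2)⁻¹ * (1 / U2 ^ 4)) := by
          field_simp
          ring
      _ ≤ 16 * C1 * (2 * (T⁻¹ * (U0 ^ 5)⁻¹) + 2 * (T⁻¹ * (U1 ^ 5)⁻¹) +
          2 * (T⁻¹ * (U2 ^ 5)⁻¹)) := by gcongr
      _ = 32 * C1 * (T⁻¹ * ((U0 ^ 5)⁻¹ + (U1 ^ 5)⁻¹ + (U2 ^ 5)⁻¹)) := by ring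
      _ ≤ (32 * C1 + 2 * C2) * (T⁻¹ * ((U0 ^ 5)⁻¹ + (U1 ^ 5)⁻¹ + (U2 ^ 5)⁻¹)) := by
          gcongr
          linarith
  · -- far case
    have hcase' : 8 * 2 ^ k < U1 ^ 4 := not_le.1 hcase
    have hTU : T ^ 4 ≤ U1 ^ 4 := by rw [hT4]; linarith
    have a1 := alg_far T U1 hT1 hU1 hTU
    have hM0 : 0 < U1 ^ 4 := by positivity
    have hpm : (0 : ℝ) < 2 ^ (n + k) := by positivity
    have hD : 0 < U1 ^ 4 / 2 / 2 ^ (n + k) := by positivity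
    have hF := hfar ((i : ℝ) / 2 ^ n) (1 / 2 ^ (n + 1)) ((j : ℝ) / 2 ^ (n + k))
      (1 / 2 ^ (n + k + 1)) (U1 ^ 4 / 2 / 2 ^ (n + k)) (by positivity) (by positivity) hD (by
        intro x hx y hy
        rw [div_le_iff₀ hpm]
        have h5 : |x - y| * 2 ^ (n + k) = |x * 2 ^ (n + k) - y * 2 ^ (n + k)| := by
          rw [← sub_mul, abs_mul, abs_of_pos hpm]
        rw [h5]
        have hx1 : (i : ℝ) * 2 ^ k ≤ x * 2 ^ (n + k) := by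
          have h1 := hx.1
          rw [div_le_iff₀ h2n] at h1
          calc (i : ℝ) * 2 ^ k ≤ (x * 2 ^ n) * 2 ^ k := by gcongr
            _ = x * 2 ^ (n + k) := by rw [hpk]; ring
        have hx2 : x * 2 ^ (n + k) ≤ (i : ℝ) * 2 ^ k + 2 ^ k := by
          have h1 := hx.2
          have h3 : (i : ℝ) / 2 ^ n + 2 * (1 / 2 ^ (n + 1)) = ((i : ℝ) + 1) / 2 ^ n := by
            rw [pow_succ]; field_simp
          rw [h3, le_div_iff₀ h2n] at h1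
          calc x * 2 ^ (n + k) = (x * 2 ^ n) * 2 ^ k := by rw [hpk]; ring
            _ ≤ ((i : ℝ) + 1) * 2 ^ k := by gcongr
            _ = (i : ℝ) * 2 ^ k + 2 ^ k := by ring
        have hy1 : (j : ℝ) ≤ y * 2 ^ (n + k) := by
          have h1 := hy.1
          rwa [div_le_iff₀ hpm] at h1
        have hy2 : y * 2 ^ (n + k) ≤ (j : ℝ) + 1 := by
          have h1 := hy.2
          have h3 : (j : ℝ) / 2 ^ (n + k) + 2 * (1 / 2 ^ (n + k + 1)) =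
              ((j : ℝ) + 1) / 2 ^ (n + k) := by
            rw [pow_succ 2 (n + k)]; field_simp
          rwa [h3, le_div_iff₀ hpm] at h1
        rw [hU14] at hcase' ⊢
        rcases le_total 0 ((j : ℝ) - q1) with h6 | h6
        · rw [abs_of_nonneg h6] at hcase' ⊢
          refine le_trans ?_ (neg_le_abs _)
          linarith [hfl1.1, hfl1.2]
        · rw [abs_of_nonpos h6] at hcase' ⊢
          refine le_trans ?_ (le_abs_self _)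
          linarith [hfl1.1, hfl1.2])
    have hF' : ‖Wd a (fun x => Wd a (fun y => Q x y) (n + k) j) n i‖ ≤
        C2 * (1 / 2 ^ (n + 1) * (1 / 2 ^ (n + k + 1)) / (U1 ^ 4 / 2 / 2 ^ (n + k)) ^ 3) := hF
    calc (2 ^ n : ℝ)⁻¹ * (T ^ 2)⁻¹ * ‖Wd a (fun x => Wd a (fun y => Q x y) (n + k) j) n i‖
        ≤ (2 ^ n : ℝ)⁻¹ * (T ^ 2)⁻¹ * (C2 *
          (1 / 2 ^ (n + 1) * (1 / 2 ^ (n + k + 1)) / (U1 ^ 4 / 2 / 2 ^ (n + k)) ^ 3)) := by gcongr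
      _ = 2 * C2 * (T ^ 6 / U1 ^ 12) := by
          rw [pow_succ, pow_succ 2 (n + k), hpk, ← hT4]
          field_simp
          ring
      _ ≤ 2 * C2 * (T⁻¹ * (U1 ^ 5)⁻¹) := by gcongr
      _ ≤ (32 * C1 + 2 * C2) * (T⁻¹ * ((U0 ^ 5)⁻¹ + (U1 ^ 5)⁻¹ + (U2 ^ 5)⁻¹)) := by
          gcongr
          · linarith
          · have h1 : 0 < (U0 ^ 5)⁻¹ := by positivity
            have h2 : 0 < (U2 ^ 5)⁻¹ := by positivity
            linarith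

theorem taskMatrix : TaskMatrix := by
  rintro ⟨C1, hC1, hN⟩ ⟨C2, hC2, hF⟩
  refine ⟨32 * C1 + 2 * C2, by positivity, ?_⟩
  intro a ha δ hδ hδ1 n i m j _ _
  by_cases hnm : n ≤ m
  · obtain ⟨k, rfl⟩ := Nat.exists_eq_add_of_le hnm
    unfold us tm
    rw [if_pos hnm]
    refine core a ha (fun x y => P a δ x y) C1 C2 hC1 hC2 ?_ ?_ n i k j
    · intro e l h hh
      have h1 := hN a ha δ hδ hδ1 e l h hh
      exact ⟨h1.2.1, fun D hD hw => (h1.2.2 D hD hw).2⟩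
    · intro l h l' h' D hh hh' hD hd
      exact hF a ha δ hδ hδ1 l h l' h' D hh hh' hD hd
  · obtain ⟨k, rfl⟩ := Nat.exists_eq_add_of_le (not_le.1 hnm).le
    unfold us tm
    rw [if_neg hnm]
    have h1 : Wd a (fun x => Wd a (fun y => P a δ x y) m j) (m + k) i =
        Wd a (fun y => Wd a (fun x => P a δ x y) (m + k) i) m j := by
      unfold Wd
      exact W_comm a (fun x y => P a δ x y) _ _ _ _
    rw [h1, mul_comm (√((2 : ℝ) ^ (m + k))⁻¹)]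
    refine core a ha (fun y x => P a δ x y) C1 C2 hC1 hC2 ?_ ?_ m j k i
    · intro e l h hh
      have h1 := hN a ha δ hδ hδ1 e l h hh
      exact ⟨h1.1, fun D hD hw => (h1.2.2 D hD hw).1⟩
    · intro l h l' h' D hh hh' hD hd
      have h2 := hF a ha δ hδ hδ1 l' h' l h D hh' hh hD
        (fun x hx y hy => by rw [abs_sub_comm]; exact hd y hy x hx)
      rw [← W_comm a (fun x y => P a δ x y) l' h' l h, mul_comm h h']
      exact h2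

end Pool.Agent.H224R3.Cau
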